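import Pool.Agent.H.MP_0aa80c_co.Geo

set_option autoImplicit false

namespace Pool.Agent.Results.MP_0aa80c_co.No

/-- Among five non-overlapping convex bodies in 3-space one can be translated along a ray,
by every positive distance, without its interior meeting the interior of another body. -/
theorem result (K : Fin 5 → Set (EuclideanSpace ℝ (Fin 3)))
    (hK : ∀ i, IsCompact (K i) ∧ Convex ℝ (K i) ∧ (interior (K i)).Nonempty)
    (hd : ∀ i j, i ≠ j → Disjoint (interior (K i)) (interior (K j))) :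
    ∃ i : Fin 5, ∃ v : EuclideanSpace ℝ (Fin 3), ‖v‖ = 1 ∧ ∀ t : ℝ, 0 < t → ∀ j, j ≠ i →
      Disjoint (interior ((fun x => x + t • v) '' K i)) (interior (K j)) := by
  obtain ⟨i, v, hv, h⟩ := H.MP_0aa80c_co.main K (fun i => (hK i).2.1) (fun i => (hK i).2.2) hd
  have hn : 0 < ‖v‖ := norm_pos_iff.2 hv
  refine ⟨i, ‖v‖⁻¹ • v, by rw [norm_smul, norm_inv, norm_norm, inv_mul_cancel₀ hn.ne'], ?_⟩
  intro t ht j hj
  have e := (Homeomorph.addRight (t • ‖v‖⁻¹ • v)).image_interior (K i)
  simp only [Homeomorph.coe_addRight] at e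
  rw [← e, Set.disjoint_left]
  rintro _ ⟨x, hx, rfl⟩
  have := h (t * ‖v‖⁻¹) (by positivity) x hx j hj
  rwa [mul_smul] at this

end Pool.Agent.Results.MP_0aa80c_co.No
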